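import Pool.Agent.Helper73.RF.GoalsE

/-!
# Project RF (MP_c98eff_gt), packet GLU: glueing two framed Ricci flows
-/

set_option autoImplicit false

open Finset Pool.Agent.Helper47.RF Pool.Agent.Helper73.RF

namespace Pool.Agent.Helper80.RF

/-- agreement off `0` -/
def EqO {α : Type} (f h : HH → α) : Prop := ∀ x, x ≠ 0 → f x = h x

theorem EqO.symm {α : Type} {f h : HH → α} (e : EqO f h) : EqO h f := fun x hx => (e x hx).symm

theorem EqO.E {f h : HH → ℝ} (e : EqO f h) (i : Fin 3) : EqO (E i f) (E i h) := by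
  intro x hx
  have h1 : f =ᶠ[nhds x] h := by
    filter_upwards [isOpen_compl_singleton.mem_nhds hx] with y hy
    exact e y hy
  unfold Pool.Agent.Helper47.RF.E
  rw [h1.fderiv_eq]

theorem EqO.Ew {f h : HH → ℝ} (e : EqO f h) (w : List (Fin 3)) : EqO (Ew w f) (Ew w h) := by
  induction w with
  | nil => exact e
  | cons i w ih => exact ih.E i

theorem EqO.entry {g g' : MF} (e : EqO g g') (i j : Fin 3) :
    EqO (fun x => g x i j) (fun x => g' x i j) := fun x hx => by
  show g x i j = g' x i j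
  rw [e x hx]

theorem EqO.GamL {g g' : MF} (e : EqO g g') (i j k : Fin 3) : EqO (GamL g i j k) (GamL g' i j k) := by
  intro x hx
  unfold Pool.Agent.Helper47.RF.GamL
  rw [(e.entry j k).E i x hx, (e.entry i k).E j x hx, (e.entry i j).E k x hx, e x hx]

theorem EqO.Gam {g g' : MF} (e : EqO g g') (i j k : Fin 3) : EqO (Gam g i j k) (Gam g' i j k) := by
  intro x hx
  unfold Pool.Agent.Helper47.RF.Gam
  rw [e x hx]
  exact Finset.sum_congr rfl fun m _ => by rw [e.GamL i j m x hx]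

theorem EqO.Rup {g g' : MF} (e : EqO g g') (i j k l : Fin 3) :
    EqO (Rup g i j k l) (Rup g' i j k l) := by
  intro x hx
  unfold Pool.Agent.Helper47.RF.Rup
  rw [(e.Gam j k l).E i x hx, (e.Gam i k l).E j x hx]
  have h1 : ∀ m, Pool.Agent.Helper47.RF.Gam g j k m x * Pool.Agent.Helper47.RF.Gam g i m l x
      - Pool.Agent.Helper47.RF.Gam g i k m x * Pool.Agent.Helper47.RF.Gam g j m l x =
      Pool.Agent.Helper47.RF.Gam g' j k m x * Pool.Agent.Helper47.RF.Gam g' i m l x
      - Pool.Agent.Helper47.RF.Gam g' i k m x * Pool.Agent.Helper47.RF.Gam g' j m l x := by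
    intro m
    rw [e.Gam j k m x hx, e.Gam i m l x hx, e.Gam i k m x hx, e.Gam j m l x hx]
  have h2 : ∀ m, Pool.Agent.Helper47.RF.eps i j m * Pool.Agent.Helper47.RF.Gam g m k l x =
      Pool.Agent.Helper47.RF.eps i j m * Pool.Agent.Helper47.RF.Gam g' m k l x := by
    intro m
    rw [e.Gam m k l x hx]
  rw [Finset.sum_congr rfl fun m _ => h1 m, Finset.sum_congr rfl fun m _ => h2 m]

theorem EqO.Ric {g g' : MF} (e : EqO g g') (j k : Fin 3) : EqO (Ric g j k) (Ric g' j k) := by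
  intro x hx
  unfold Pool.Agent.Helper47.RF.Ric
  exact Finset.sum_congr rfl fun i _ => e.Rup i j k i x hx

theorem EqO.gOf {θ θ' : MF} (e : EqO θ θ') : EqO (gOf θ) (gOf θ') := by
  intro x hx
  unfold Pool.Agent.Helper73.RF.gOf
  rw [e x hx]

theorem EqO.RicF {A A' θ θ' : MF} (eA : EqO A A') (et : EqO θ θ') (a b : Fin 3) (x : HH)
    (hx : x ≠ 0) : RicF A θ x a b = RicF A' θ' x a b := by
  unfold Pool.Agent.Helper73.RF.RicF
  rw [eA x hx]
  exact Finset.sum_congr rfl fun i _ => Finset.sum_congr rfl fun j _ => by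
    rw [et.gOf.Ric i j x hx]

/-- glueing in time -/
noncomputable def gl {α : Type} (T : ℝ) (f h : ℝ → α) : ℝ → α :=
  fun t => if t ≤ T then f t else h (t - T)

theorem gl_left {α : Type} {T t : ℝ} (f h : ℝ → α) (ht : t ≤ T) : gl T f h t = f t := if_pos ht

theorem gl_right {α : Type} {T t : ℝ} (f h : ℝ → α) (ht : T < t) : gl T f h t = h (t - T) :=
  if_neg (not_le.2 ht)

/-- on the right part (including the end point) -/
theorem gl_ew {T t : ℝ} {f h : ℝ → HH → ℝ} (e : EqO (h 0) (f T)) (ht : T ≤ t)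
    (w : List (Fin 3)) {x : HH} (hx : x ≠ 0) :
    Ew w (gl T f h t) x = Ew w (h (t - T)) x := by
  rcases eq_or_lt_of_le ht with h1 | h1
  · rw [← h1, gl_left f h le_rfl, sub_self]
    exact (e.Ew w x hx).symm
  · rw [gl_right f h h1]

theorem Icc_split {T τ : ℝ} (hT : 0 < T) (hτ : 0 < τ) :
    Set.Icc 0 (T + τ) = Set.Icc 0 T ∪ Set.Icc T (T + τ) :=
  (Set.Icc_union_Icc_eq_Icc hT.le (by linarith)).symm

theorem smFam_gl {T τ : ℝ} (hT : 0 < T) (hτ : 0 < τ) {f h : ℝ → HH → ℝ}
    (hf : SmFam (Set.Icc 0 T) f) (hh : SmFam (Set.Icc 0 τ) h) (e : EqO (h 0) (f T)) :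
    SmFam (Set.Icc 0 (T + τ)) (gl T f h) := by
  constructor
  · intro t ht
    rcases le_or_gt t T with h1 | h1
    · rw [gl_left f h h1]
      exact hf.sm t ⟨ht.1, h1⟩
    · rw [gl_right f h h1]
      exact hh.sm _ ⟨by linarith, by linarith [ht.2]⟩
  · intro w
    have c1 : ∀ p : ℝ × HH, p.2 ≠ 0 → 0 ≤ p.1 →
        ContinuousWithinAt (fun p : ℝ × HH => Ew w (gl T f h p.1) p.2)
          ((Set.Icc 0 T) ×ˢ ({0}ᶜ : Set HH)) p := by
      intro p hp hp0
      rcases le_or_gt p.1 T with h1 | h1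
      · refine ((hf.cont w).congr fun q hq => ?_) p ⟨⟨hp0, h1⟩, hp⟩
        show Ew w (gl T f h q.1) q.2 = Ew w (f q.1) q.2
        rw [gl_left f h hq.1.2]
      · refine continuousWithinAt_of_notMem_closure ?_
        rw [closure_prod_eq, isClosed_Icc.closure_eq]
        intro h2
        exact absurd h2.1.2 (not_le.2 h1)
    have c2 : ∀ p : ℝ × HH, p.2 ≠ 0 → p.1 ≤ T + τ →
        ContinuousWithinAt (fun p : ℝ × HH => Ew w (gl T f h p.1) p.2)
          ((Set.Icc T (T + τ)) ×ˢ ({0}ᶜ : Set HH)) p := by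
      intro p hp hp0
      rcases lt_or_ge p.1 T with h1 | h1
      · refine continuousWithinAt_of_notMem_closure ?_
        rw [closure_prod_eq, isClosed_Icc.closure_eq]
        intro h2
        exact absurd h2.1.1 (not_le.2 h1)
      · have h3 : ContinuousOn (fun p : ℝ × HH => Ew w (h (p.1 - T)) p.2)
            ((Set.Icc T (T + τ)) ×ˢ ({0}ᶜ : Set HH)) := by
          have h4 : ContinuousOn (fun p : ℝ × HH => (p.1 - T, p.2))
              ((Set.Icc T (T + τ)) ×ˢ ({0}ᶜ : Set HH)) :=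
            Continuous.continuousOn (by fun_prop)
          refine (hh.cont w).comp h4 fun q hq => ⟨⟨?_, ?_⟩, hq.2⟩
          · show 0 ≤ q.1 - T
            linarith [hq.1.1]
          · show q.1 - T ≤ τ
            linarith [hq.1.2]
        refine (h3.congr fun q hq => ?_) p ⟨⟨h1, hp0⟩, hp⟩
        exact gl_ew e hq.1.1 w hq.2
    rw [Icc_split hT hτ, Set.union_prod]
    intro p hp
    have hp1 : 0 ≤ p.1 ∧ p.1 ≤ T + τ ∧ p.2 ≠ 0 := by
      rcases hp with hp | hp
      · exact ⟨hp.1.1, by linarith [hp.1.2], hp.2⟩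
      · exact ⟨by linarith [hp.1.1], hp.1.2, hp.2⟩
    exact (c1 p hp1.2.2 hp1.1).union (c2 p hp1.2.2 hp1.2.1)

theorem smFam1_gl {T τ : ℝ} (hT : 0 < T) (hτ : 0 < τ) {f f' h h' : ℝ → HH → ℝ}
    (hf : SmFam1 (Set.Icc 0 T) f f') (hh : SmFam1 (Set.Icc 0 τ) h h') (e : EqO (h 0) (f T))
    (e' : EqO (h' 0) (f' T)) :
    SmFam1 (Set.Icc 0 (T + τ)) (gl T f h) (gl T f' h') := by
  refine ⟨smFam_gl hT hτ hf.fam hh.fam e, smFam_gl hT hτ hf.fam' hh.fam' e', fun w x hx t ht => ?_⟩
  have c1 : HasDerivWithinAt (fun s => Ew w (gl T f h s) x) (Ew w (gl T f' h' t) x)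
      (Set.Icc 0 T) t := by
    rcases le_or_gt t T with h1 | h1
    · rw [gl_left f' h' h1]
      refine (hf.der w x hx t ⟨ht.1, h1⟩).congr_of_mem (fun s hs => ?_) ⟨ht.1, h1⟩
      rw [gl_left f h hs.2]
    · refine HasFDerivWithinAt.of_notMem_closure (s := Set.Icc 0 T) ?_
      rw [isClosed_Icc.closure_eq]
      intro h2
      exact absurd h2.2 (not_le.2 h1)
  have c2 : HasDerivWithinAt (fun s => Ew w (gl T f h s) x) (Ew w (gl T f' h' t) x)
      (Set.Icc T (T + τ)) t := by
    rcases lt_or_ge t T with h1 | h1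
    · refine HasFDerivWithinAt.of_notMem_closure (s := Set.Icc T (T + τ)) ?_
      rw [isClosed_Icc.closure_eq]
      intro h2
      exact absurd h2.1 (not_le.2 h1)
    · rw [gl_ew e' h1 w hx]
      have h3 := hh.der w x hx (t - T) ⟨by linarith, by linarith [ht.2]⟩
      have h4 : HasDerivWithinAt (fun s : ℝ => s - T) 1 (Set.Icc T (T + τ)) t :=
        ((hasDerivAt_id t).sub_const T).hasDerivWithinAt
      have h5 := HasDerivWithinAt.comp t h3 h4 (fun s hs => by
        exact ⟨by linarith [hs.1], by linarith [hs.2]⟩)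
      rw [mul_one] at h5
      refine h5.congr_of_mem (fun s hs => ?_) ⟨h1, ht.2⟩
      exact gl_ew e hs.1 w hx
  rw [Icc_split hT hτ]
  exact c1.union c2

theorem gl_apply {α : Type} (T : ℝ) (f h : ℝ → HH → α) (t : ℝ) (x : HH) :
    gl T f h t x = gl T (fun s => f s x) (fun s => h s x) t := by
  unfold gl
  split_ifs <;> rfl

/-- glueing commutes with operations -/
theorem gl_map {α β γ : Type} (F : α → β → γ) (T : ℝ) (f h : ℝ → α) (f2 h2 : ℝ → β) (t : ℝ) :
    F (gl T f h t) (gl T f2 h2 t) = gl T (fun s => F (f s) (f2 s)) (fun s => F (h s) (h2 s)) t := by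
  unfold gl
  split_ifs <;> rfl

theorem glu : GluStmt := by
  intro T τ A θ A' θ' hT hτ hF hF' h0
  have eA : EqO (A' 0) (A T) := fun x hx => (h0 x hx).1
  have et : EqO (θ' 0) (θ T) := fun x hx => (h0 x hx).2
  refine ⟨gl T A A', gl T θ θ', ⟨?_, ?_, ?_⟩, ?_⟩
  · intro t ht x
    rcases le_or_gt t T with h1 | h1
    · rw [gl_left _ _ h1, gl_left _ _ h1]
      exact hF.inv t ⟨ht.1, h1⟩ x
    · rw [gl_right _ _ h1, gl_right _ _ h1]
      exact hF'.inv (t - T) ⟨by linarith, by linarith [ht.2]⟩ x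
  · intro a i
    have h1 := smFam1_gl hT hτ (hF.flA a i) (hF'.flA a i) (eA.entry a i) (fun x hx => by
      show ∑ b, RicF (A' 0) (θ' 0) x a b * A' 0 x b i = ∑ b, RicF (A T) (θ T) x a b * A T x b i
      refine Finset.sum_congr rfl fun b _ => ?_
      rw [EqO.RicF eA et a b x hx, eA x hx])
    have h2 : gl T (fun t x => A t x a i) (fun t x => A' t x a i) =
        fun t x => gl T A A' t x a i :=
      funext fun t => (gl_map (fun (B : MF) (_ : MF) => fun x => B x a i) T A A' A A' t).symm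
    have h3 : gl T (fun t x => ∑ b, RicF (A t) (θ t) x a b * A t x b i)
        (fun t x => ∑ b, RicF (A' t) (θ' t) x a b * A' t x b i) =
        fun t x => ∑ b, RicF (gl T A A' t) (gl T θ θ' t) x a b * gl T A A' t x b i :=
      funext fun t => (gl_map (fun (B C : MF) => fun x => ∑ b, RicF B C x a b * B x b i)
        T A A' θ θ' t).symm
    rw [h2, h3] at h1
    exact h1
  · intro i a
    have h1 := smFam1_gl hT hτ (hF.flt i a) (hF'.flt i a) (et.entry i a) (fun x hx => by
      show -∑ b, θ' 0 x i b * RicF (A' 0) (θ' 0) x b a = -∑ b, θ T x i b * RicF (A T) (θ T) x b a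
      refine congrArg Neg.neg (Finset.sum_congr rfl fun b _ => ?_)
      rw [EqO.RicF eA et b a x hx, et x hx])
    have h2 : gl T (fun t x => θ t x i a) (fun t x => θ' t x i a) =
        fun t x => gl T θ θ' t x i a :=
      funext fun t => (gl_map (fun (B : MF) (_ : MF) => fun x => B x i a) T θ θ' θ θ' t).symm
    have h3 : gl T (fun t x => -∑ b, θ t x i b * RicF (A t) (θ t) x b a)
        (fun t x => -∑ b, θ' t x i b * RicF (A' t) (θ' t) x b a) =
        fun t x => -∑ b, gl T θ θ' t x i b * RicF (gl T A A' t) (gl T θ θ' t) x b a :=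
      funext fun t => (gl_map (fun (B C : MF) => fun x => -∑ b, C x i b * RicF B C x b a)
        T A A' θ θ' t).symm
    rw [h2, h3] at h1
    exact h1
  · intro t _ ht x _
    rw [gl_left _ _ ht, gl_left _ _ ht]
    exact ⟨rfl, rfl⟩

end Pool.Agent.Helper80.RF
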