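import Pool.Agent.Helper73.RF.GoalsE
import Pool.Agent.Helper69.RF.C1
import Pool.Agent.Helper5.RF.C2

/-!
# Project RF (MP_c98eff_gt), packet BWG: linear systems of ODE in `t` with parameters
-/

set_option autoImplicit false

open Finset Pool.Agent.Helper47.RF

namespace Pool.Agent.Helper80.RF

open Pool.Agent.Helper73.RF (JS BW BwrStmt BwgStmt inf)

/-- the open set of the definition of `JS` -/
def OmT (T : ℝ) : Set (HH × ℝ) := {p | p.1 ≠ 0 ∧ 0 < p.2 ∧ p.2 < T}

theorem isOpen_OmT (T : ℝ) : IsOpen (OmT T) := by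
  have h1 : IsOpen {p : HH × ℝ | p.1 ≠ 0} := isOpen_ne_fun continuous_fst continuous_const
  have h3 : IsOpen {p : HH × ℝ | 0 < p.2} := isOpen_lt continuous_const continuous_snd
  have h4 : IsOpen {p : HH × ℝ | p.2 < T} := isOpen_lt continuous_snd continuous_const
  have : OmT T = {p : HH × ℝ | p.1 ≠ 0} ∩ ({p : HH × ℝ | 0 < p.2} ∩ {p : HH × ℝ | p.2 < T}) := by
    ext p; simp [OmT]
  rw [this]
  exact h1.inter (h3.inter h4)

theorem js_sm {T : ℝ} {u : ℝ → HH → ℝ} (hu : JS T u) {t : ℝ} (h0 : 0 < t) (h1 : t < T) :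
    Sm (u t) := by
  refine ⟨?_, hu.hom t h0 h1⟩
  have h2 : ContDiff ℝ inf (fun y : HH => (y, t)) := contDiff_id.prodMk contDiff_const
  exact hu.cd.comp h2.contDiffOn fun y hy => ⟨hy, h0, h1⟩

theorem js_const (T c : ℝ) : JS T (fun _ _ => c) := ⟨contDiffOn_const, fun _ _ _ _ _ _ => rfl⟩

theorem js_add {T : ℝ} {u v : ℝ → HH → ℝ} (hu : JS T u) (hv : JS T v) :
    JS T (fun t x => u t x + v t x) :=
  ⟨hu.cd.add hv.cd, fun t h0 h1 r x hr => by
    show u t (r • x) + v t (r • x) = u t x + v t x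
    rw [hu.hom t h0 h1 r x hr, hv.hom t h0 h1 r x hr]⟩

theorem js_mul {T : ℝ} {u v : ℝ → HH → ℝ} (hu : JS T u) (hv : JS T v) :
    JS T (fun t x => u t x * v t x) :=
  ⟨hu.cd.mul hv.cd, fun t h0 h1 r x hr => by
    show u t (r • x) * v t (r • x) = u t x * v t x
    rw [hu.hom t h0 h1 r x hr, hv.hom t h0 h1 r x hr]⟩

theorem js_sum {T : ℝ} {ι : Type} (s : Finset ι) (u : ι → ℝ → HH → ℝ) (hu : ∀ a, JS T (u a)) :
    JS T (fun t x => ∑ a ∈ s, u a t x) :=
  ⟨ContDiffOn.sum fun a _ => (hu a).cd, fun t h0 h1 r x hr => by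
    show ∑ a ∈ s, u a t (r • x) = ∑ a ∈ s, u a t x
    exact Finset.sum_congr rfl fun a _ => (hu a).hom t h0 h1 r x hr⟩

/-- the derivative of a family along `E i` in terms of the joint derivative -/
theorem e_joint {T : ℝ} {u : ℝ → HH → ℝ} (hu : JS T u) (i : Fin 3) {t : ℝ} {x : HH}
    (hp : (x, t) ∈ OmT T) :
    E i (u t) x = fderiv ℝ (fun p : HH × ℝ => u p.2 p.1) (x, t) (x * qe i, 0) := by
  have h1 : HasFDerivAt (fun p : HH × ℝ => u p.2 p.1)
      (fderiv ℝ (fun p : HH × ℝ => u p.2 p.1) (x, t)) (x, t) :=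
    ((hu.cd.contDiffAt ((isOpen_OmT T).mem_nhds hp)).differentiableAt (by simp)).hasFDerivAt
  have h2 : HasFDerivAt (fun y : HH => (y, t)) (ContinuousLinearMap.inl ℝ HH ℝ) x :=
    hasFDerivAt_prodMk_left x t
  have h3 := h1.comp x h2
  have h4 : fderiv ℝ (u t) x =
      (fderiv ℝ (fun p : HH × ℝ => u p.2 p.1) (x, t)).comp (ContinuousLinearMap.inl ℝ HH ℝ) :=
    h3.fderiv
  unfold E
  rw [h4]
  rfl

theorem js_E {T : ℝ} {u : ℝ → HH → ℝ} (hu : JS T u) (i : Fin 3) : JS T (fun t => E i (u t)) := by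
  refine ⟨?_, fun t h0 h1 => ((js_sm hu h0 h1).c1_E i).hom⟩
  have h1 : ContDiffOn ℝ inf (fderiv ℝ (fun p : HH × ℝ => u p.2 p.1)) (OmT T) :=
    hu.cd.fderiv_of_isOpen (isOpen_OmT T) (by simp)
  have h2 : ContDiff ℝ inf (fun p : HH × ℝ => (p.1 * qe i, (0 : ℝ))) :=
    (contDiff_fst.mul contDiff_const).prodMk contDiff_const
  exact (h1.clm_apply h2.contDiffOn).congr fun p hp => e_joint hu i hp

/-- the time derivative commutes with `E i` -/
theorem js_comm {T : ℝ} {u F : ℝ → HH → ℝ} (hu : JS T u)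
    (hF : ∀ t, 0 < t → t < T → ∀ x, x ≠ 0 → HasDerivAt (fun s => u s x) (F t x) t)
    (i : Fin 3) {t : ℝ} {x : HH} (h0 : 0 < t) (h1 : t < T) (hx : x ≠ 0) :
    HasDerivAt (fun s => E i (u s) x) (E i (F t) x) t := by
  set U : HH × ℝ → ℝ := fun p => u p.2 p.1 with hU
  have hp : (x, t) ∈ OmT T := ⟨hx, h0, h1⟩
  have hop := isOpen_OmT T
  have hcd : ∀ p ∈ OmT T, ContDiffAt ℝ inf U p := fun p hp => hu.cd.contDiffAt (hop.mem_nhds hp)
  -- the time derivative
  have hFt : ∀ y s, (y, s) ∈ OmT T → F s y = fderiv ℝ U (y, s) (0, 1) := by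
    intro y s hys
    have h2 : HasFDerivAt U (fderiv ℝ U (y, s)) (y, s) :=
      ((hcd _ hys).differentiableAt (by simp)).hasFDerivAt
    have h3 : HasFDerivAt (fun r : ℝ => (y, r)) (ContinuousLinearMap.inr ℝ HH ℝ) s :=
      hasFDerivAt_prodMk_right y s
    have h4 : HasDerivAt (fun r => u r y)
        (((fderiv ℝ U (y, s)).comp (ContinuousLinearMap.inr ℝ HH ℝ)) 1) s :=
      (h2.comp s h3).hasDerivAt
    exact (hF s hys.2.1 hys.2.2 y hys.1).unique h4
  -- the second derivative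
  have hD : HasFDerivAt (fderiv ℝ U) (fderiv ℝ (fderiv ℝ U) (x, t)) (x, t) := by
    have h2 : ContDiffOn ℝ inf (fderiv ℝ U) (OmT T) := hu.cd.fderiv_of_isOpen hop (by simp)
    exact ((h2.contDiffAt (hop.mem_nhds hp)).differentiableAt (by simp)).hasFDerivAt
  have hsymm : IsSymmSndFDerivAt ℝ U (x, t) :=
    (hcd _ hp).isSymmSndFDerivAt (by
      rw [minSmoothness_of_isRCLikeNormedField]
      exact WithTop.coe_le_coe.2 (le_top : (2 : ℕ∞) ≤ ⊤))
  -- left side
  have hA : HasDerivAt (fun s => fderiv ℝ U (x, s) (x * qe i, 0))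
      (fderiv ℝ (fderiv ℝ U) (x, t) (0, 1) (x * qe i, 0)) t := by
    have h3 : HasFDerivAt (fun r : ℝ => (x, r)) (ContinuousLinearMap.inr ℝ HH ℝ) t :=
      hasFDerivAt_prodMk_right x t
    have h4 : HasDerivAt (fun s => fderiv ℝ U (x, s))
        (((fderiv ℝ (fderiv ℝ U) (x, t)).comp (ContinuousLinearMap.inr ℝ HH ℝ)) 1) t :=
      (HasFDerivAt.comp (g := fderiv ℝ U) (f := fun r : ℝ => (x, r)) t hD h3).hasDerivAt
    have h5 := h4.clm_apply (hasDerivAt_const t ((x * qe i, 0) : HH × ℝ))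
    simpa using h5
  -- right side
  have hB : E i (F t) x = fderiv ℝ (fderiv ℝ U) (x, t) (x * qe i, 0) (0, 1) := by
    have h2 : HasFDerivAt (fun y : HH => (y, t)) (ContinuousLinearMap.inl ℝ HH ℝ) x :=
      hasFDerivAt_prodMk_left x t
    have h3 : HasFDerivAt (fun y => fderiv ℝ U (y, t))
        ((fderiv ℝ (fderiv ℝ U) (x, t)).comp (ContinuousLinearMap.inl ℝ HH ℝ)) x :=
      HasFDerivAt.comp (g := fderiv ℝ U) (f := fun y : HH => (y, t)) x hD h2
    have h4 := h3.clm_apply (hasFDerivAt_const ((0, 1) : HH × ℝ) x)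
    have h5 : (F t) =ᶠ[nhds x] fun y => fderiv ℝ U (y, t) (0, 1) := by
      filter_upwards [isOpen_compl_singleton.mem_nhds hx] with y hy
      exact hFt y t ⟨hy, h0, h1⟩
    unfold E
    rw [h5.fderiv_eq, h4.fderiv]
    simp
  rw [hB, hsymm.eq]
  refine hA.congr_of_eventuallyEq ?_
  have h6 : ∀ᶠ s in nhds t, 0 < s ∧ s < T :=
    (eventually_gt_nhds h0).and (eventually_lt_nhds h1)
  filter_upwards [h6] with s hs
  exact e_joint hu i ⟨hx, hs.1, hs.2⟩

/-- Gronwall, uniformly in the parameter -/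
theorem gron {T K ε C a : ℝ} {n : ℕ} (hK : 0 < K) (hε : 0 ≤ ε) (hC : 0 ≤ C) (ha : 0 < a)
    (y y' : ℝ → Fin n → ℝ)
    (hd : ∀ t, 0 < t → t < T → HasDerivAt y (y' t) t)
    (hb : ∀ t, 0 < t → t < T → ‖y' t‖ ≤ K * ‖y t‖ + ε) (h0 : ‖y a‖ ≤ C) :
    ∀ t, a ≤ t → t < T → ‖y t‖ ≤ C * Real.exp (K * T) + ε / K * Real.exp (K * T) := by
  intro t hat htT
  have h1 := norm_le_gronwallBound_of_norm_deriv_right_le (f := y) (f' := y') (δ := C) (K := K)
    (ε := ε) (a := a) (b := t)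
    (fun s hs => (hd s (by linarith [hs.1]) (by linarith [hs.2])).continuousAt.continuousWithinAt)
    (fun s hs => (hd s (by linarith [hs.1]) (by linarith [hs.2])).hasDerivWithinAt) h0
    (fun s hs => hb s (by linarith [hs.1]) (by linarith [hs.2])) t ⟨hat, le_rfl⟩
  refine h1.trans ?_
  rw [gronwallBound_of_K_ne_0 hK.ne']
  have h2 : Real.exp (K * (t - a)) ≤ Real.exp (K * T) := by
    refine Real.exp_le_exp.2 (mul_le_mul_of_nonneg_left (by linarith) hK.le)
  have h3 : 0 ≤ ε / K := div_nonneg hε hK.le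
  have h4 : C * Real.exp (K * (t - a)) ≤ C * Real.exp (K * T) := mul_le_mul_of_nonneg_left h2 hC
  have h5 : ε / K * (Real.exp (K * (t - a)) - 1) ≤ ε / K * Real.exp (K * T) :=
    mul_le_mul_of_nonneg_left (by linarith) h3
  exact add_le_add h4 h5

/-- the case without derivatives -/
theorem bwg0 {T : ℝ} {n : ℕ} {u : Fin n → ℝ → HH → ℝ} {p : Fin n → Fin n → ℝ → HH → ℝ}
    {r : Fin n → ℝ → HH → ℝ} (hT : 0 < T)
    (hp : ∀ j l, ∃ C, ∀ t, 0 < t → t < T → ∀ x, x ≠ 0 → |p j l t x| ≤ C)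
    (hr : ∀ j, ∃ C, ∀ t, 0 < t → t < T → ∀ x, x ≠ 0 → |r j t x| ≤ C)
    (hd : ∀ j t, 0 < t → t < T → ∀ x, x ≠ 0 →
      HasDerivAt (fun r' => u j r' x) (∑ l, p j l t x * u l t x + r j t x) t)
    (h0 : ∀ j, ∃ C t0 : ℝ, 0 < t0 ∧ t0 < T ∧ ∀ t, 0 < t → t < t0 → ∀ x, x ≠ 0 →
      |u j t x| ≤ C) :
    ∃ C, ∀ j, ∀ t, 0 < t → t < T → ∀ x, x ≠ 0 → |u j t x| ≤ C := by
  choose P hP using hp
  choose R hR using hr
  choose C0 t0 ht0 ht0T hC0 using h0
  have hev : ∀ᶠ a in nhdsWithin (0 : ℝ) (Set.Ioi 0), ∀ j, a < t0 j := by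
    refine Filter.eventually_all.2 fun j => ?_
    exact (eventually_lt_nhds (ht0 j)).filter_mono nhdsWithin_le_nhds
  have hev2 : ∀ᶠ a in nhdsWithin (0 : ℝ) (Set.Ioi 0), a < T :=
    (eventually_lt_nhds hT).filter_mono nhdsWithin_le_nhds
  obtain ⟨a, ⟨ha1, ha2⟩, ha3⟩ := ((hev.and hev2).and self_mem_nhdsWithin).exists
  have ha0 : 0 < a := ha3
  set C := ∑ j, |C0 j| with hCdef
  set K := ∑ j, ∑ l, |P j l| + 1 with hKdef
  set ε := ∑ j, |R j| with hεdef
  have hC : 0 ≤ C := Finset.sum_nonneg fun j _ => abs_nonneg _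
  have hK : 0 < K := add_pos_of_nonneg_of_pos
    (Finset.sum_nonneg fun j _ => Finset.sum_nonneg fun l _ => abs_nonneg _) one_pos
  have hε : 0 ≤ ε := Finset.sum_nonneg fun j _ => abs_nonneg _
  have hCj : ∀ j, C0 j ≤ C := fun j => (le_abs_self _).trans
    (Finset.single_le_sum (f := fun j => |C0 j|) (fun j _ => abs_nonneg _) (Finset.mem_univ j))
  have hRj : ∀ j, R j ≤ ε := fun j => (le_abs_self _).trans
    (Finset.single_le_sum (f := fun j => |R j|) (fun j _ => abs_nonneg _) (Finset.mem_univ j))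
  have hPj : ∀ j, ∑ l, |P j l| ≤ K := fun j => (Finset.single_le_sum
    (f := fun j => ∑ l, |P j l|) (fun j _ => Finset.sum_nonneg fun l _ => abs_nonneg _)
    (Finset.mem_univ j)).trans (by linarith)
  have hE1 : 1 ≤ Real.exp (K * T) := Real.one_le_exp (by positivity)
  have hnn : 0 ≤ ε / K * Real.exp (K * T) := by positivity
  refine ⟨C * Real.exp (K * T) + ε / K * Real.exp (K * T), fun j t ht htT x hx => ?_⟩
  rcases lt_or_ge t a with h2 | h2
  · have h3 : |u j t x| ≤ C := (hC0 j t ht (h2.trans (ha1 j)) x hx).trans (hCj j)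
    have h4 : C ≤ C * Real.exp (K * T) := le_mul_of_one_le_right hC hE1
    linarith
  · have h5 := gron (T := T) (n := n) hK hε hC ha0 (fun s j => u j s x)
      (fun s j => ∑ l, p j l s x * u l s x + r j s x)
      (fun s h6 h7 => hasDerivAt_pi.2 fun j => hd j s h6 h7 x hx)
      (fun s h6 h7 => ?_) ?_ t h2 htT
    · exact (norm_le_pi_norm (fun j => u j t x) j).trans h5
    · refine (pi_norm_le_iff_of_nonneg (by positivity)).2 fun j => ?_
      rw [Real.norm_eq_abs]
      calc |∑ l, p j l s x * u l s x + r j s x| ≤ |∑ l, p j l s x * u l s x| + |r j s x| :=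
            abs_add_le _ _
        _ ≤ ∑ l, |p j l s x * u l s x| + ε :=
            add_le_add (Finset.abs_sum_le_sum_abs _ _) ((hR j s h6 h7 x hx).trans (hRj j))
        _ ≤ ∑ l, |P j l| * ‖fun j => u j s x‖ + ε := by
            refine add_le_add (Finset.sum_le_sum fun l _ => ?_) le_rfl
            rw [abs_mul]
            exact mul_le_mul ((hP j l s h6 h7 x hx).trans (le_abs_self _))
              (norm_le_pi_norm (fun j => u j s x) l) (abs_nonneg _) (abs_nonneg _)
        _ ≤ K * ‖fun j => u j s x‖ + ε := by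
            rw [← Finset.sum_mul]
            exact add_le_add (mul_le_mul_of_nonneg_right (hPj j) (norm_nonneg _)) le_rfl
    · refine (pi_norm_le_iff_of_nonneg hC).2 fun j => ?_
      rw [Real.norm_eq_abs]
      -- the value at `a`
      exact (hC0 j a ha0 (ha1 j) x hx).trans (hCj j)

theorem ew_append (w : List (Fin 3)) (i : Fin 3) (f : HH → ℝ) : Ew w (E i f) = Ew (w ++ [i]) f := by
  induction w with
  | nil => rfl
  | cons j w ih =>
    show E j (Ew w (E i f)) = E j (Ew (w ++ [i]) f)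
    rw [ih]

theorem bw_mono {T : ℝ} {m k : ℕ} (h : m ≤ k) {u : ℝ → HH → ℝ} (hu : BW T k u) : BW T m u :=
  fun w hw => hu w (hw.trans h)

theorem bw_sum (h : BwrStmt) {T : ℝ} {m : ℕ} {ι : Type} (s : Finset ι) (u : ι → ℝ → HH → ℝ)
    (hu : ∀ a, JS T (u a)) (hb : ∀ a, BW T m (u a)) : BW T m (fun t x => ∑ a ∈ s, u a t x) := by
  classical
  induction s using Finset.induction_on with
  | empty =>
    simp only [Finset.sum_empty]
    exact (h T m _ _ (js_const T 0) (js_const T 0)).2.1 0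
  | insert a s ha ih =>
    simp only [Finset.sum_insert ha]
    exact ((h T m _ _ (hu a) (js_sum s u hu)).1 (hb a) ih).2.1

theorem bwg (h : BwrStmt) : BwgStmt := by
  intro T m n
  induction m with
  | zero =>
    intro u p r hT hu hp hr hbp hbr hd h0 j
    obtain ⟨C, hC⟩ := bwg0 (u := u) (p := p) (r := r) hT
      (fun j l => hbp j l [] le_rfl) (fun j => hbr j [] le_rfl) hd (fun j => h0 j [])
    intro w hw
    have hw0 : w = [] := List.length_eq_zero_iff.1 (Nat.le_zero.1 hw)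
    rw [hw0]
    exact ⟨C, fun t ht htT x hx => hC j t ht htT x hx⟩
  | succ m ih =>
    intro u p r hT hu hp hr hbp hbr hd h0 j
    have hm : ∀ j, BW T m (u j) :=
      ih u p r hT hu hp hr (fun j l => bw_mono (Nat.le_succ m) (hbp j l))
        (fun j => bw_mono (Nat.le_succ m) (hbr j)) hd h0
    refine (h T m _ _ (hu j) (hu j)).2.2.1 (bw_mono (Nat.zero_le m) (hm j)) fun i => ?_
    have hJs : ∀ j, JS T (fun t x => ∑ l, E i (p j l t) x * u l t x) := fun j =>
      js_sum _ (fun l t x => E i (p j l t) x * u l t x) fun l => js_mul (js_E (hp j l) i) (hu l)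
    have hBs : ∀ j, BW T m (fun t x => ∑ l, E i (p j l t) x * u l t x) := fun j =>
      bw_sum h _ (fun l t x => E i (p j l t) x * u l t x)
        (fun l => js_mul (js_E (hp j l) i) (hu l)) fun l =>
        ((h T m _ _ (js_E (hp j l) i) (hu l)).1
          ((h T m _ _ (hp j l) (hp j l)).2.2.2 (hbp j l) i) (hm l)).1
    refine ih (fun j t => E i (u j t)) p
      (fun j t x => ∑ l, E i (p j l t) x * u l t x + E i (r j t) x) hT
      (fun j => js_E (hu j) i) hp (fun j => js_add (hJs j) (js_E (hr j) i))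
      (fun j l => bw_mono (Nat.le_succ m) (hbp j l))
      (fun j => ((h T m _ _ (hJs j) (js_E (hr j) i)).1 (hBs j)
          ((h T m _ _ (hr j) (hr j)).2.2.2 (hbr j) i)).2.1) ?_ ?_ j
    · intro j t ht htT x hx
      have h1 := js_comm (F := fun t x => ∑ l, p j l t x * u l t x + r j t x) (hu j)
        (hd j) i ht htT hx
      have hsp : ∀ j l, Sm (p j l t) := fun j l => js_sm (hp j l) ht htT
      have hsu : ∀ j, Sm (u j t) := fun j => js_sm (hu j) ht htT
      have hsr : ∀ j, Sm (r j t) := fun j => js_sm (hr j) ht htT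
      have h2 : E i (fun x => ∑ l, p j l t x * u l t x + r j t x) x =
          ∑ l, p j l t x * E i (u l t) x + (∑ l, E i (p j l t) x * u l t x + E i (r j t) x) := by
        rw [Pool.Agent.Helper5.RF.E_add
          (Sm.c1_sum _ (fun l x => p j l t x * u l t x) fun l _ => (hsp j l).c1_mul (hsu l))
          (hsr j),
          Pool.Agent.Helper5.RF.E_sum _ (fun l x => p j l t x * u l t x) i x
            (fun l _ => (hsp j l).c1_mul (hsu l))]
        have h3 : ∀ l, E i (fun x => p j l t x * u l t x) x =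
            p j l t x * E i (u l t) x + E i (p j l t) x * u l t x := by
          intro l
          rw [Pool.Agent.Helper5.RF.E_mul (hsp j l) (hsu l)]
          ring
        rw [Finset.sum_congr rfl fun l _ => h3 l, Finset.sum_add_distrib]
        ring
      rw [← h2]
      exact h1
    · intro j w
      obtain ⟨C, t0, h1, h2, h3⟩ := h0 j (w ++ [i])
      refine ⟨C, t0, h1, h2, fun t ht htT x hx => ?_⟩
      rw [ew_append]
      exact h3 t ht htT x hx

end Pool.Agent.Helper80.RF
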